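import Pool.Agent.H82.Top.Chordal

/-!
# MP_75a6f0_co: the conjecture for chordal graphs

Every finite chordal graph `G` (every cycle of length at least four has a chord) is proportionally
`k`-choosable for every `k ≥ Δ(G) + 1`.
-/

set_option autoImplicit false

open Finset

namespace Pool.Agent.Results.MP_75a6f0_co.ChordalGraphs

theorem result {V C : Type*} [Fintype V] [DecidableEq V] [DecidableEq C] (G : SimpleGraph V)
    [DecidableRel G.Adj]
    (hG : ∀ (v : V) (w : G.Walk v v), w.IsCycle → 4 ≤ w.length →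
      ∃ a ∈ w.support, ∃ b ∈ w.support, G.Adj a b ∧ s(a, b) ∉ w.edges)
    (k : ℕ) (hk : G.maxDegree + 1 ≤ k) (L : V → Finset C) (hL : ∀ v, (L v).card = k) :
    ∃ f : V → C, (∀ v, f v ∈ L v) ∧ (∀ u v, G.Adj u v → f u ≠ f v) ∧
      ∀ c : C, (univ.filter (fun v => c ∈ L v)).card / k ≤ (univ.filter (fun v => f v = c)).card ∧
        (univ.filter (fun v => f v = c)).card ≤
          ((univ.filter (fun v => c ∈ L v)).card + k - 1) / k :=
  Pool.Agent.H82.Top.prop_chordal G hG hk L hL

end Pool.Agent.Results.MP_75a6f0_co.ChordalGraphs
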