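import Pool.Agent.H82.Top.Cor

/-!
# MP_75a6f0_co: proportional choosability with `Δ + d` colours

Let `G` be a finite `d`-degenerate graph, `d ≥ 1`, and let `k ≥ Δ(G) + d`. Then `G` is
proportionally `k`-choosable. In particular every graph is proportionally `k`-choosable for all
`k ≥ max(1, 2 Δ(G))`, and forests are for all `k ≥ Δ(G) + 1`.

Idea of the proof: consider the join, over the colours `c`, of the `⌈η(c)/k⌉`-truncations of the
complexes (independent sets of vertices whose lists contain `c`) joined with dummy points, at most
one dummy point for each colour with `k ∤ η(c)`, where the number of dummy points is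
`∑ ⌈η(c)/k⌉ - |V|`. A full transversal of this complex is a proportional colouring. It exists by
the homological form of Hall's theorem for complexes (Aharoni-Haxell, Meshulam).
-/

set_option autoImplicit false

open Finset

namespace Pool.Agent.Results.MP_75a6f0_co.DegeneracyBound

theorem result {V C : Type*} [Fintype V] [DecidableEq V] [DecidableEq C] (G : SimpleGraph V)
    [DecidableRel G.Adj] (d k : ℕ) (hd : 1 ≤ d)
    (hG : ∀ W : Finset V, W.Nonempty → ∃ v ∈ W, (W.filter (fun u => G.Adj v u)).card ≤ d)
    (hk : G.maxDegree + d ≤ k) (L : V → Finset C) (hL : ∀ v, (L v).card = k) :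
    ∃ f : V → C, (∀ v, f v ∈ L v) ∧ (∀ u v, G.Adj u v → f u ≠ f v) ∧
      ∀ c : C, (univ.filter (fun v => c ∈ L v)).card / k ≤ (univ.filter (fun v => f v = c)).card ∧
        (univ.filter (fun v => f v = c)).card ≤
          ((univ.filter (fun v => c ∈ L v)).card + k - 1) / k :=
  Pool.Agent.H82.Top.prop_degenerate G hd hG hk L hL

end Pool.Agent.Results.MP_75a6f0_co.DegeneracyBound
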